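import Pool.Agent.Helper95.MF.Tow

/-!
# MP_c71c7a_nt: finite generation and finite étale covers of affine spaces over a finite field

Let `k` be a finite field of characteristic `p`. `H n i X` stands for `H^i(X_et, ℤ^c(n))`, where `ℤ^c(n)` is
Bloch's complex of cycles of dimension `n` on the scheme `X` of finite type over `k`. For `X` regular of
pure dimension `d` this is `H^(i + 2d)(X_et, ℤ(d - n))`; so Q1 is about `H 0 i X`, `-2d ≤ i ≤ 0`, for `X`
regular, connected and proper. The structures `Known` and `KnownGeometry` list the known facts which are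
used. A *tower* is a scheme which is obtained from a projective space over `k` by finitely many blow-ups
along regular connected closed subschemes.

`covS F` is the cover `F(x_1, …, x_m, t) = 0` of the affine space of dimension `m` over `k`; `IsCover F`
says that `F` is irreducible, monic in `t`, and has a constant discriminant: the cover is connected,
finite and étale. `asf p f` is the Artin–Schreier cover `t ^ p - t = x_0 f(x_1, …, x_m)` of the affine
space of dimension `m + 1`; it is smooth and affine.

**Theorem.** (1) For `n ≤ 0` finite generation in the weight `n` for the cover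
`t ^ p - t = x_0 f(x_1, …, x_m)` is equivalent to finite generation in the weight `n - 1` for the
hypersurface `f = 0`.

(2) For `n < 0` and `d ≥ 0` the following are equivalent: finite generation in the weight `n` for all
separated schemes of finite type over `k` of dimension at most `d`; the same for the connected finite
étale covers of the affine spaces of dimension at most `d`; finite generation in the weight `n + 1` for
the covers `t ^ p - t = x_0 f(x_1, …, x_(d + 1))`.

(3) Q1 for all towers over `k` is true if and only if the groups `H^q(E_et, ℤ(m + 1))` are finitely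
generated for all connected finite étale covers `E` of the affine spaces of dimension `m`, all `m`, `q`; if
and only if the groups `H^q(E_et, ℤ(m + 1))`, `q ≤ 2 (m + 1)`, are finitely generated for all covers
`E : t ^ p - t = x_0 f(x_1, …, x_m)` of the affine spaces of dimension `m + 1`; if and only if all groups
of negative weights of all schemes over `k` are finitely generated.

(4) The groups `H^q(E_et, ℤ(3))`, `q ≤ 6`, are finitely generated for the covers
`E : t ^ p - t = x_0 f(x_1, x_2)`.
-/

set_option autoImplicit false

namespace Pool.Agent.Results.MP_c71c7a_nt.EtaleCoversOfAffineSpace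

open CategoryTheory AlgebraicGeometry
open Pool.Agent.Y116.UV (Sch aff FT ft_aff)
open Pool.Agent.Helper62.EC (covS IsCover asS AS yf)
open Pool.Agent.Helper95.MF

/-- The Artin–Schreier cover `t ^ p - t = x_0 f(x_1, …, x_m)` of the affine space of dimension
`m + 1`. -/
noncomputable def asf {k : Type} [Field k] (p : ℕ) {m : ℕ} (f : MvPolynomial (Fin m) k) : Sch k :=
  asS p (MvPolynomial.X 0 * MvPolynomial.rename Fin.succ f)

/-- The hypersurface `f = 0` in the affine space. -/
noncomputable def hyp {k : Type} [Field k] {m : ℕ} (f : MvPolynomial (Fin m) k) : Sch k :=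
  aff k (MvPolynomial (Fin m) k ⧸ Ideal.span {f})

/-- **Finite generation and finite étale covers of affine spaces over a finite field.** `curves` is the
known case of the dimension at most one. -/
theorem result (k : Type) [Field k] [Finite k] (p : ℕ) [Fact p.Prime] [CharP k p] (T : Groups k)
    (hT : Known T) (hG : KnownGeometry T)
    (curves : ∀ n < 0, ∀ X : Sch k, FT True X → topologicalKrullDim X.left ≤ (1 : ℕ) →
      FGen T n X) :
    (∀ (m : ℕ) (f : MvPolynomial (Fin m) k), ∀ n ≤ 0,
      FGen T n (asf p f) ↔ FGen T (n - 1) (hyp f)) ∧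
    (∀ n < 0, ∀ d : ℕ, List.TFAE
      [∀ X : Sch k, FT True X → topologicalKrullDim X.left ≤ d → FGen T n X,
        ∀ (m : ℕ) (F : Polynomial (MvPolynomial (Fin m) k)), m ≤ d → IsCover F →
          FGen T n (covS F),
        ∀ f : MvPolynomial (Fin (d + 1)) k, FGen T (n + 1) (asf p f)]) ∧
    List.TFAE
      [∀ (N : ℕ) (B : Sch k), IsTower N B → ∀ j ≤ 0, -2 * (N : ℤ) ≤ j → AddGroup.FG (T.H 0 j B),
        ∀ (m : ℕ) (F : Polynomial (MvPolynomial (Fin m) k)), IsCover F →
          ∀ i, AddGroup.FG (T.H (-1) i (covS F)),
        ∀ (m : ℕ) (f : MvPolynomial (Fin m) k) (i : ℤ), i ≤ 0 → AddGroup.FG (T.H 0 i (asf p f)),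
        ∀ n < 0, ∀ X : Sch k, FT True X → ∀ i, AddGroup.FG (T.H n i X)] ∧
    (∀ (f : MvPolynomial (Fin 2) k) (i : ℤ), i ≤ 0 → AddGroup.FG (T.H 0 i (asf p f))) := by
  have hp : p ≠ 0 := (Fact.out : p.Prime).ne_zero
  -- Artin-Schreier covers
  have key : ∀ (m : ℕ) (f : MvPolynomial (Fin m) k), ∀ n ≤ 0,
      FGen T n (asf p f) ↔ FGen T (n - 1) (hyp f) := by
    intro m f n hn
    have h2 : MvPolynomial.finSuccEquiv k m
        (MvPolynomial.X 0 * MvPolynomial.rename Fin.succ f) = yf f := by
      rw [map_mul, MvPolynomial.finSuccEquiv_X_zero]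
      have h3 : ((MvPolynomial.finSuccEquiv k m).toAlgHom.comp
          (MvPolynomial.rename (R := k) (Fin.succ : Fin m → Fin (m + 1)))) =
          IsScalarTower.toAlgHom k (MvPolynomial (Fin m) k)
            (Polynomial (MvPolynomial (Fin m) k)) := by
        apply MvPolynomial.algHom_ext
        intro i
        change MvPolynomial.finSuccEquiv k m (MvPolynomial.rename Fin.succ (MvPolynomial.X i)) =
          Polynomial.C (MvPolynomial.X i)
        rw [MvPolynomial.rename_X, MvPolynomial.finSuccEquiv_X_succ]
      have h4 := DFunLike.congr_fun h3 f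
      change MvPolynomial.finSuccEquiv k m (MvPolynomial.rename Fin.succ f) = Polynomial.C f at h4
      rw [h4]
    obtain ⟨E⟩ := Pool.Agent.Helper62.EC.as_congr (k := k) p (MvPolynomial.finSuccEquiv k m) h2
    have h5 : FGen T n (asf p f) ↔ FGen T n (aff k (AS p (yf f))) :=
      ⟨fgen_iso hT hn E, fgen_iso hT hn E.symm⟩
    rw [h5, as_iff hT p hn f (space_line hT m hn)]
    exact fgen_line hT hn _
  -- one dimension
  have hdim : ∀ n < 0, ∀ d : ℕ, List.TFAE
      [∀ X : Sch k, FT True X → topologicalKrullDim X.left ≤ d → FGen T n X,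
        ∀ (m : ℕ) (F : Polynomial (MvPolynomial (Fin m) k)), m ≤ d → IsCover F →
          FGen T n (covS F),
        ∀ f : MvPolynomial (Fin (d + 1)) k, FGen T (n + 1) (asf p f)] := by
    intro n hn d
    tfae_have 1 ↔ 2 := by
      rw [Pool.Agent.Helper62.EC.dim_cover (cls hT hn) p hp d]
      exact ⟨fun h m F hm hF => h m F hm hF.1 hF.2 hF.3, fun h m F hm h1 h2 h3 =>
        h m F hm ⟨h1, h2, h3⟩⟩
    tfae_have 1 ↔ 3 := by
      rw [dim_iff hT hn d]
      refine forall_congr' fun f => ?_
      have h1 := key (d + 1) f (n + 1) (by omega)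
      rw [add_sub_cancel_right] at h1
      exact h1.symm
    tfae_finish
  refine ⟨key, hdim, ?_, fun f i hi => ?_⟩
  · tfae_have 1 → 4 := fun h n hn X hX i => fgen_all hT hn hX
      (all_of_nice hT hG n hn (fun Y hY i => nice_of_tower hT hG h n hn Y hY i) X hX) i
    tfae_have 4 → 1 := fun h N B hB j hj _ => tower_of_neg hG h hB j hj
    tfae_have 4 → 2 := fun h m F _ i => h (-1) (by norm_num) _
      (ft_aff True (h := Algebra.FiniteType.trans (S := MvPolynomial (Fin m) k)
        inferInstance inferInstance)) i
    tfae_have 2 → 4 := fun h n hn X hX i => fgen_all hT hn hX (all_neg hT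
      ((Pool.Agent.Helper62.EC.all_cover (cls hT (by norm_num)) p hp).2
        fun m F h1 h2 h3 i _ => h m F ⟨h1, h2, h3⟩ i) n hn X hX) i
    tfae_have 4 → 3 := fun h m f i hi => (key m f 0 le_rfl).2
      (fun l _ => h (0 - 1) (by norm_num) _ (ft_aff True) l) i (by omega)
    tfae_have 3 → 4 := by
      intro h n hn X hX i
      refine fgen_all hT hn hX (all_neg hT (fun X hX => ?_) n hn X hX) i
      have hP := cls hT (n := -1) (by norm_num)
      refine Pool.Agent.Y116.UV.of_affine' (P := FGen T (-1)) (sep := True) hP.iso hP.total ?_ X hX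
      intro A _ _ hA
      obtain ⟨N, g, hg⟩ := Algebra.FiniteType.iff_quotient_mvPolynomial''.1 hA
      exact Pool.Agent.Helper62.EC.iso_alg hP (Ideal.quotientKerAlgEquivOfSurjective hg)
        (Pool.Agent.Helper67.SO.of_hyp hP
          (fun F => (key N F 0 le_rfl).1 fun l hl => h N F l (by omega)) (RingHom.ker g))
    tfae_finish
  · have h1 : ∀ f : MvPolynomial (Fin (1 + 1)) k, FGen T (-1 + 1) (asf p f) :=
      ((hdim (-1) (by norm_num) 1).out 0 2).1 (curves (-1) (by norm_num))
    exact h1 f i (by omega)

end Pool.Agent.Results.MP_c71c7a_nt.EtaleCoversOfAffineSpace
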