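import Pool.Agent.Helper95.MG.Tow
import Pool.Agent.Helper24.SE.Disj

/-!
# MP_c71c7a_nt: finite generation and exceptional sets with a power saving

`H n i X` stands for `H^i(X_et, ℤ^c(n))`, where `ℤ^c(n)` is Bloch's complex of cycles of dimension `n`.
For `X` regular of pure dimension `d` this is `H^(i + 2d)(X_et, ℤ(d - n))`; so Q1 is about `H 0 i X`,
`-2d ≤ i ≤ 0`, for `X` regular, connected and proper over `ℤ`. `Known` and `KnownGeometry` list the known
facts which are used. A *tower* is a scheme which is obtained from a projective space over `ℤ` by finitely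
many blow-ups along regular connected closed subschemes, flat over `ℤ` or not.

For a polynomial `F` over `ℤ` in `r` variables let `S_F` be the smooth affine scheme
`t ^ 2 - t = y F(x)` over `ℤ`, of dimension `r + 2` (`dblZ F`). Let `Box r D B` be the finite set of the
`F` of degree at most `D` in each variable for which the sum of the absolute values of the coefficients
is at most `B`. For `n < 0` we call `F` an exception if it is false that the groups
`H (n + 1) i S_F`, `i ≤ -2 (n + 1)`, are finitely generated; for `n = -1` these are the groups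
`H^p(S_F, et, ℤ(d))`, `p ≤ 2 d`, `d = dim S_F`. Let `Exc(D, B)` be the set of the exceptions in the box.

**Theorem.** (1) For `n < 0` and `d ≥ 0` the groups of the weight `n` of all regular separated schemes of
finite type over `ℤ` with fibres of dimension at most `d` are finitely generated if and only if the
exceptional sets in `d + 1` variables have a power saving: for some `ε > 0` there are infinitely many
`D` and for these infinitely many `B` such that `#Exc(D, B) ≤ #Box(D, B) ^ (1 - ε)`.

(2) A zero–one law: if there is one exception in `r` variables, then for every `ε > 0`, for all large `D`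
and all large `B` (depending on `D`) there are more than `#Box(D, B) ^ (1 - ε)` exceptions.

(3) If the hypersurfaces `F = 0` and `G = 0` are disjoint and `F` is an exception, then `G` or `F G` is an
exception.

(4) Q1 for all towers is equivalent to a power saving for the exceptions for `n = -1` in `r` variables,
for infinitely many `r`, and to the finite generation of all groups of negative weights of all
arithmetic schemes.
-/

set_option autoImplicit false

namespace Pool.Agent.Results.MP_c71c7a_nt.PowerSaving

open CategoryTheory AlgebraicGeometry Filter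
open Pool.Agent.Y116.UV (Sch aff FT ft_aff)
open Q54.CU Q54.ZE
open Pool.Agent.Helper95.MG
open Pool.Agent.Helper24.SE

/-- `F` is an exception: it is false that the groups of the scheme `t ^ 2 - t = y F` in the weight
`n + 1` are finitely generated (in the degrees at most `-2 (n + 1)`). -/
def Exception (T : Groups) (n : ℤ) {r : ℕ} (F : MvPolynomial (Fin r) ℤ) : Prop :=
  ¬ FGen T (n + 1) (dblZ F)

open TensorProduct in
/-- The dimension of the fibres of a closed subscheme of the affine space (Helper24/SE/Soule). -/
lemma fib_quot {N d : ℕ} (hN : N ≤ d) (I : Ideal (MvPolynomial (Fin N) ℤ)) :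
    FibLE d (X := (aff ℤ (MvPolynomial (Fin N) ℤ ⧸ I)).left)
      (aff ℤ (MvPolynomial (Fin N) ℤ ⧸ I)).hom := by
  refine (fib_affine (MvPolynomial (Fin N) ℤ ⧸ I)).2 fun K _ => ?_
  refine (dim_surj (Ideal.Quotient.mk I) Ideal.Quotient.mk_surjective K).trans ?_
  have e : MvPolynomial (Fin N) ℤ ⊗[ℤ] K ≃+* MvPolynomial (Fin N) K :=
    ((Algebra.TensorProduct.comm ℤ (MvPolynomial (Fin N) ℤ) K).toRingEquiv).trans
      (MvPolynomial.algebraTensorAlgEquiv ℤ K).toRingEquiv
  rw [ringKrullDim_eq_of_ringEquiv e, MvPolynomial.ringKrullDim_of_isNoetherianRing,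
    ringKrullDim_eq_zero_of_field, zero_add]
  simpa using (by exact_mod_cast hN : (N : WithBot ℕ∞) ≤ d)

/-- **Finite generation and exceptional sets with a power saving.** -/
theorem result (T : Groups) (hT : Known T) (hG : KnownGeometry T) :
    -- (1) one weight and one dimension
    (∀ n < 0, ∀ d : ℕ, List.TFAE
      [∀ X : Sch ℤ, FT True X → IsRegularSch X.left → FibLE d (X := X.left) X.hom → FGen T n X,
        ∀ X : Sch ℤ, FT True X → FibLE d (X := X.left) X.hom → FGen T n X,
        Saving (r := d + 1) (Exception T n)]) ∧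
    -- (2) the zero-one law
    (∀ n < 0, ∀ (r : ℕ) (G : MvPolynomial (Fin r) ℤ), Exception T n G → ∀ ε : ℝ, 0 < ε →
      ∀ᶠ D : ℕ in atTop, ∀ᶠ B : ℕ in atTop,
        ((Box r D B).ncard : ℝ) ^ (1 - ε) < ((Exc (r := r) (Exception T n) D B).ncard : ℝ)) ∧
    -- (3) disjoint hypersurfaces
    (∀ n < 0, ∀ (r : ℕ) (F G : MvPolynomial (Fin r) ℤ), Ideal.span {G} ⊔ Ideal.span {F} = ⊤ →
      Exception T n F → Exception T n G ∨ Exception T n (F * G)) ∧
    -- (4) towers
    List.TFAE
      [∀ (N : ℕ) (B : Sch ℤ), IsTower N B → ∀ j ≤ 0, -2 * ((N : ℤ) + 1) ≤ j →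
          AddGroup.FG (T.H 0 j B),
        ∃ᶠ r : ℕ in atTop, Saving (r := r) (Exception T (-1)),
        ∀ n < 0, ∀ X : Sch ℤ, FT True X → ∀ i, AddGroup.FG (T.H n i X)] := by
  -- exceptions
  have hex : ∀ n < 0, ∀ {r : ℕ} (F : MvPolynomial (Fin r) ℤ), Exception T n F ↔
      ¬ FGen T n (aff ℤ (Localization.Away F)) := by
    intro n hn r F
    have h1 := dbl_iff hT (n := n + 1) (by omega) F
    rw [add_sub_cancel_right] at h1
    exact not_congr (h1.trans (compl_iff (cls hT hn) (space hT r hn.le) F).symm)
  have hdis : ∀ n < 0, ∀ (r : ℕ) (F G : MvPolynomial (Fin r) ℤ),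
      Ideal.span {G} ⊔ Ideal.span {F} = ⊤ → Exception T n F →
        Exception T n G ∨ Exception T n (F * G) := by
    intro n hn r F G hFG hF
    rw [hex n hn] at hF
    rw [hex n hn, hex n hn]
    exact disj_compl (cls hT hn) (space hT r hn.le) F G hFG hF
  have hbad : ∀ n < 0, ∀ (r : ℕ) (G P : MvPolynomial (Fin r) ℤ), Exception T n G →
      Exception T n (1 + G * P) ∨ Exception T n (G * (1 + G * P)) := fun n hn r G P hG =>
    hdis n hn r G _ (span_one G P) hG
  have hzero : ∀ n < 0, ∀ r : ℕ, ¬ Exception T n (0 : MvPolynomial (Fin r) ℤ) := by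
    intro n hn r h
    rw [hex n hn] at h
    exact h (compl_zero (cls hT hn) (space hT r hn.le))
  have hsav : ∀ n < 0, ∀ r : ℕ, Saving (r := r) (Exception T n) ↔
      ∀ F : MvPolynomial (Fin r) ℤ, FGen T n (hypZ F) := by
    intro n hn r
    rw [← saving_iff (hbad n hn r) (hzero n hn r)]
    refine forall_congr' fun F => ?_
    rw [hex n hn, not_not]
    exact compl_iff (cls hT hn) (space hT r hn.le) F
  -- one dimension
  have hdim : ∀ n < 0, ∀ d : ℕ, List.TFAE
      [∀ X : Sch ℤ, FT True X → IsRegularSch X.left → FibLE d (X := X.left) X.hom → FGen T n X,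
        ∀ X : Sch ℤ, FT True X → FibLE d (X := X.left) X.hom → FGen T n X,
        Saving (r := d + 1) (Exception T n)] := by
    intro n hn d
    have hF : ∀ (p : ℕ) [Fact p.Prime],
        FGen T n (aff ℤ (MvPolynomial (Fin (d + 1)) (ZMod p))) := by
      intro p _
      have : Algebra.FiniteType ℤ (ZMod p) :=
        Algebra.FiniteType.of_surjective (Algebra.ofId ℤ (ZMod p)) (ZMod.intCast_surjective)
      exact fgen_space hT (ZMod p) (fun n hn => hT.prime p n hn) (d + 1) n hn.le
    have hmain := Pool.Agent.Helper67.SO.fib_hyp (cls hT hn) d (space hT (d + 1) hn.le)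
      (hT.integers n hn.le) hF
    have h01 : (∀ X : Sch ℤ, FT True X → IsRegularSch X.left → FibLE d (X := X.left) X.hom →
        FGen T n X) → ∀ X : Sch ℤ, FT True X → FibLE d (X := X.left) X.hom → FGen T n X :=
      (hmain.out 0 1).1
    have h12 : (∀ X : Sch ℤ, FT True X → FibLE d (X := X.left) X.hom → FGen T n X) ↔
        ∀ F : MvPolynomial (Fin (d + 1)) ℤ, FGen T n (hypZ F) := hmain.out 1 2
    tfae_have 1 → 2 := h01
    tfae_have 2 → 1 := fun h X hX _ hd => h X hX hd
    tfae_have 2 ↔ 3 := h12.trans (hsav n hn (d + 1)).symm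
    tfae_finish
  refine ⟨hdim, fun n hn r G hG' ε hε => ?_, hdis, ?_⟩
  · exact full (hbad n hn r) hG' (fun h => hzero n hn r (h ▸ hG')) hε
  · tfae_have 1 → 3 := fun h n hn X hX i => fgen_all hT hn hX
      (all_of_nice hT hG n hn (fun Y hY i => nice_of_tower hT hG h n hn Y hY i) X hX) i
    tfae_have 3 → 1 := fun h N B hB j hj _ => tower_of_neg hG h hB j hj
    tfae_have 3 → 2 := fun h => Frequently.of_forall fun r =>
      (hsav (-1) (by norm_num) r).2 fun F i _ => h (-1) (by norm_num) _ (ft_aff True) i
    tfae_have 2 → 3 := by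
      intro h n hn X hX i
      refine fgen_all hT hn hX (all_neg hT (all_of_hyp hT (by norm_num) fun N F => ?_) n hn X hX) i
      obtain ⟨r, hr, hrN⟩ := (h.and_eventually (eventually_ge_atTop (N + 1))).exists
      obtain ⟨d, rfl⟩ : ∃ d, r = d + 1 := ⟨r - 1, by omega⟩
      have h1 : ∀ X : Sch ℤ, FT True X → FibLE d (X := X.left) X.hom → FGen T (-1) X :=
        ((hdim (-1) (by norm_num) d).out 1 2).2 hr
      exact h1 _ (ft_aff True) (fib_quot (by omega) _)
    tfae_finish

end Pool.Agent.Results.MP_c71c7a_nt.PowerSaving
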