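import Pool.Agent.Helper95.MG.Tow

/-!
# MP_c71c7a_nt: finite generation for unions of two affine spaces over the integers

`H n i X` stands for `H^i(X_et, ℤ^c(n))`, where `ℤ^c(n)` is Bloch's complex of cycles of dimension `n`.
For `X` regular of pure dimension `d` this is `H^(i + 2d)(X_et, ℤ(d - n))`; so Q1 is about `H 0 i X`,
`-2d ≤ i ≤ 0`, for `X` regular, connected and proper over `ℤ`. The structures `Known` and
`KnownGeometry` list the known facts which are used.

A *tower* is a scheme which is obtained from a projective space over `ℤ` by finitely many blow-ups along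
regular connected closed subschemes, flat over `ℤ` or not. Towers are regular, connected and projective
over `ℤ`.

For a polynomial `F` over `ℤ` in `x_1, …, x_N` let `S_F` be the scheme `t ^ 2 - t = y F(x)` over `ℤ`, of
dimension `d = N + 2`. It is affine and smooth over `ℤ`, and the union of two open subschemes which are
isomorphic to the affine space of dimension `N + 1` over `ℤ`.

**Theorem.** Q1 for all towers is true if and only if the groups `H^p(S_F, et, ℤ(d))` are finitely
generated for all `F` and `d - φ(d) ≤ p ≤ 2d`, where `φ` is any unbounded function; and this is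
equivalent to the finite generation of the groups of all negative weights of all arithmetic schemes.
-/

set_option autoImplicit false

namespace Pool.Agent.Results.MP_c71c7a_nt.UnionsOfTwoAffineSpaces

open CategoryTheory AlgebraicGeometry
open Pool.Agent.Y116.UV (Sch aff FT ft_aff)
open Q54.CU Q54.ZE
open Pool.Agent.Helper95.MG

/-- `X` is smooth and affine over `ℤ`, separated and of finite type, and the union of two open
subschemes which are isomorphic to the affine space of dimension `N` over `ℤ`. -/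
structure IsGluedSpace (N : ℕ) (X : Sch ℤ) : Prop where
  ft : FT True X
  affine : IsAffine X.left
  smooth : Smooth X.hom
  glued : ∃ j₁ j₂ : aff ℤ (MvPolynomial (Fin N) ℤ) ⟶ X, IsOpenImmersion j₁.left ∧
    IsOpenImmersion j₂.left ∧ Set.range j₁.left ∪ Set.range j₂.left = Set.univ

lemma glued_dblZ {N : ℕ} (F : MvPolynomial (Fin N) ℤ) : IsGluedSpace (N + 1) (dblZ F) where
  ft := ft_aff True
  affine := (inferInstance : IsAffine (Spec (CommRingCat.of (Pool.Agent.Helper62.DB.Db F))))
  smooth := Pool.Agent.Helper62.DB.smooth0 F (eqv N)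
  glued := Pool.Agent.Helper62.DB.two_spaces0 F (eqv N)

/-- **Finite generation for unions of two affine spaces over the integers.** -/
theorem result (T : Groups) (hT : Known T) (hG : KnownGeometry T) :
    (∀ (N : ℕ) (F : MvPolynomial (Fin N) ℤ), IsGluedSpace (N + 1) (dblZ F) ∧
      ∀ n ≤ 0, FGen T n (dblZ F) ↔ FGen T (n - 1) (hypZ F)) ∧
    (∀ n < 0, ∀ d : ℕ, List.TFAE
      [∀ X : Sch ℤ, FT True X → IsRegularSch X.left → FibLE d (X := X.left) X.hom → FGen T n X,
        ∀ X : Sch ℤ, FT True X → FibLE d (X := X.left) X.hom → FGen T n X,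
        ∀ F : MvPolynomial (Fin (d + 1)) ℤ, FGen T (n + 1) (dblZ F)]) ∧
    (∀ φ : ℕ → ℕ, (∀ B, ∃ d, B ≤ φ d) → List.TFAE
      [∀ (N : ℕ) (B : Sch ℤ), IsTower N B → ∀ j ≤ 0, -2 * ((N : ℤ) + 1) ≤ j →
          AddGroup.FG (T.H 0 j B),
        ∀ (N : ℕ) (B : Sch ℤ), IsTower N B → ∀ j ≤ 0, AddGroup.FG (T.H 0 j B),
        ∀ (N : ℕ) (F : MvPolynomial (Fin N) ℤ) (i : ℤ), -((N : ℤ) + 2) - φ (N + 2) ≤ i → i ≤ 0 →
          AddGroup.FG (T.H 0 i (dblZ F)),
        ∀ (N : ℕ) (F : MvPolynomial (Fin N) ℤ) (i : ℤ), i ≤ 0 → AddGroup.FG (T.H 0 i (dblZ F)),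
        ∀ n < 0, ∀ X : Sch ℤ, FT True X → ∀ i, AddGroup.FG (T.H n i X)]) := by
  refine ⟨fun N F => ⟨glued_dblZ F, fun n hn => dbl_iff hT hn F⟩, fun n hn d => ?_, fun φ hφ => ?_⟩
  · have hF : ∀ (p : ℕ) [Fact p.Prime],
        FGen T n (aff ℤ (MvPolynomial (Fin (d + 1)) (ZMod p))) := by
      intro p _
      have : Algebra.FiniteType ℤ (ZMod p) :=
        Algebra.FiniteType.of_surjective (Algebra.ofId ℤ (ZMod p)) (ZMod.intCast_surjective)
      exact fgen_space hT (ZMod p) (fun n hn => hT.prime p n hn) (d + 1) n hn.le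
    have hmain := Pool.Agent.Helper67.SO.fib_hyp (cls hT hn) d (space hT (d + 1) hn.le)
      (hT.integers n hn.le) hF
    have h01 : (∀ X : Sch ℤ, FT True X → IsRegularSch X.left → FibLE d (X := X.left) X.hom →
        FGen T n X) → ∀ X : Sch ℤ, FT True X → FibLE d (X := X.left) X.hom → FGen T n X :=
      (hmain.out 0 1).1
    have h12 : (∀ X : Sch ℤ, FT True X → FibLE d (X := X.left) X.hom → FGen T n X) ↔
        ∀ F : MvPolynomial (Fin (d + 1)) ℤ, FGen T n (hypZ F) := hmain.out 1 2
    have h3 : (∀ F : MvPolynomial (Fin (d + 1)) ℤ, FGen T (n + 1) (dblZ F)) ↔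
        ∀ F : MvPolynomial (Fin (d + 1)) ℤ, FGen T n (hypZ F) := by
      refine forall_congr' fun F => ?_
      have h4 := dbl_iff hT (n := n + 1) (by omega) F
      rwa [add_sub_cancel_right] at h4
    tfae_have 1 → 2 := h01
    tfae_have 2 → 1 := fun h X hX _ hd => h X hX hd
    tfae_have 2 ↔ 3 := h12.trans h3.symm
    tfae_finish
  · tfae_have 1 → 5 := fun h n hn X hX i => fgen_all hT hn hX
      (all_of_nice hT hG n hn (fun Y hY i => nice_of_tower hT hG h n hn Y hY i) X hX) i
    tfae_have 5 → 2 := fun h N B hB => tower_of_neg hG h hB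
    tfae_have 2 → 1 := fun h N B hB j hj _ => h N B hB j hj
    tfae_have 5 → 4 := fun h N F i hi =>
      (dbl_iff hT le_rfl F).2 (fun k _ => h (0 - 1) (by omega) (hypZ F) (ft_aff True) k) i
        (by omega)
    tfae_have 4 → 3 := fun h N F i _ hi => h N F i hi
    tfae_have 3 → 5 := fun h n hn X hX i => fgen_all hT hn hX
      (all_neg hT (all_of_hyp hT (by norm_num) (hyp_of_window hT φ hφ h)) n hn X hX) i
    tfae_finish

end Pool.Agent.Results.MP_c71c7a_nt.UnionsOfTwoAffineSpaces
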